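import Mathlib

set_option autoImplicit false

namespace Pool.Agent.Results.MP_1643f9_gt.MassSymmetricTorus

open scoped ContDiff

/-- Partial derivative of a vector valued map of the plane in the first coordinate. -/
noncomputable def pdu {m : ℕ} (φ : ℝ × ℝ → EuclideanSpace ℝ (Fin m)) (p : ℝ × ℝ) :
    EuclideanSpace ℝ (Fin m) :=
  fderiv ℝ φ p ((1 : ℝ), (0 : ℝ))

/-- Partial derivative of a vector valued map of the plane in the second coordinate. -/
noncomputable def pdv {m : ℕ} (φ : ℝ × ℝ → EuclideanSpace ℝ (Fin m)) (p : ℝ × ℝ) :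
    EuclideanSpace ℝ (Fin m) :=
  fderiv ℝ φ p ((0 : ℝ), (1 : ℝ))

/-- First coefficient of the metric induced by `x`. -/
noncomputable def gE {m : ℕ} (x : ℝ × ℝ → EuclideanSpace ℝ (Fin m)) (p : ℝ × ℝ) : ℝ :=
  inner ℝ (pdu x p) (pdu x p)

/-- Mixed coefficient of the metric induced by `x`. -/
noncomputable def gF {m : ℕ} (x : ℝ × ℝ → EuclideanSpace ℝ (Fin m)) (p : ℝ × ℝ) : ℝ :=
  inner ℝ (pdu x p) (pdv x p)

/-- Last coefficient of the metric induced by `x`. -/
noncomputable def gG {m : ℕ} (x : ℝ × ℝ → EuclideanSpace ℝ (Fin m)) (p : ℝ × ℝ) : ℝ :=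
  inner ℝ (pdv x p) (pdv x p)

/-- Area density of the metric induced by `x`. -/
noncomputable def area {m : ℕ} (x : ℝ × ℝ → EuclideanSpace ℝ (Fin m)) (p : ℝ × ℝ) : ℝ :=
  Real.sqrt (gE x p * gG x p - gF x p ^ 2)

/-- The Laplace operator (with nonnegative spectrum) of the metric induced by `x`, applied
componentwise to the vector valued map `φ`. -/
noncomputable def lap {m : ℕ} (x φ : ℝ × ℝ → EuclideanSpace ℝ (Fin m)) (p : ℝ × ℝ) :
    EuclideanSpace ℝ (Fin m) :=
  -((area x p)⁻¹ •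
    (pdu (fun q => (area x q)⁻¹ • (gG x q • pdu φ q - gF x q • pdv φ q)) p +
     pdv (fun q => (area x q)⁻¹ • (gE x q • pdv φ q - gF x q • pdu φ q)) p))

/-- `x` is a smooth immersion of the plane. -/
def IsImmersion {m : ℕ} (x : ℝ × ℝ → EuclideanSpace ℝ (Fin m)) : Prop :=
  ContDiff ℝ ∞ x ∧ ∀ p, LinearIndependent ℝ ![pdu x p, pdv x p]

/-- `x` is doubly periodic, with period `2π` in both variables, so that it is a map of the torus
`(ℝ/2πℤ)²`. -/
def IsTorusMap {m : ℕ} (x : ℝ × ℝ → EuclideanSpace ℝ (Fin m)) : Prop :=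
  (∀ u v : ℝ, x (u + 2 * Real.pi, v) = x (u, v)) ∧ ∀ u v : ℝ, x (u, v + 2 * Real.pi) = x (u, v)

/-- `x = c + x₁ + x₂` with `c` constant and `x₁`, `x₂` non-constant doubly periodic eigenmaps of the
Laplace operator of the induced metric, with distinct positive eigenvalues (so `x` is of 2-type, and
this is its spectral decomposition). -/
def IsTwoTypeWithCentre {m : ℕ} (x : ℝ × ℝ → EuclideanSpace ℝ (Fin m))
    (c : EuclideanSpace ℝ (Fin m)) : Prop :=
  ∃ (x₁ x₂ : ℝ × ℝ → EuclideanSpace ℝ (Fin m)) (lam₁ lam₂ : ℝ),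
    0 < lam₁ ∧ lam₁ < lam₂ ∧ ContDiff ℝ ∞ x₁ ∧ ContDiff ℝ ∞ x₂ ∧
    IsTorusMap x₁ ∧ IsTorusMap x₂ ∧
    (∀ a, ∃ p, x₁ p ≠ a) ∧ (∀ a, ∃ p, x₂ p ≠ a) ∧
    (∀ p, x p = c + x₁ p + x₂ p) ∧
    (∀ p, lap x x₁ p = lam₁ • x₁ p) ∧ (∀ p, lap x x₂ p = lam₂ • x₂ p)

/-- The image of `x` lies in the hypersphere with centre `o` and radius `r`. -/
def LiesInSphere {m : ℕ} (x : ℝ × ℝ → EuclideanSpace ℝ (Fin m))
    (o : EuclideanSpace ℝ (Fin m)) (r : ℝ) : Prop :=
  0 < r ∧ ∀ p, ‖x p - o‖ = r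

/-- The image of `x` lies in no affine hyperplane. -/
def IsFull {m : ℕ} (x : ℝ × ℝ → EuclideanSpace ℝ (Fin m)) : Prop :=
  ∀ (w : EuclideanSpace ℝ (Fin m)) (t : ℝ), w ≠ 0 → ∃ p, inner ℝ w (x p) ≠ t

abbrev E9 : Type := EuclideanSpace ℝ (Fin 9)

/-- A single mode `a(u) (cos(k v) A + sin(k v) B)`. -/
noncomputable def mode (a : ℝ → ℝ) (k : ℝ) (A B : E9) (p : ℝ × ℝ) : E9 :=
  a p.1 • (Real.cos (k * p.2) • A + Real.sin (k * p.2) • B)

theorem hasFDerivAt_mode {a : ℝ → ℝ} {a' : ℝ} (k : ℝ) (A B : E9) (p : ℝ × ℝ)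
    (ha : HasDerivAt a a' p.1) :
    HasFDerivAt (mode a k A B)
      ((a' • ContinuousLinearMap.fst ℝ ℝ ℝ).smulRight
          (Real.cos (k * p.2) • A + Real.sin (k * p.2) • B) +
        (ContinuousLinearMap.snd ℝ ℝ ℝ).smulRight (mode a k (k • B) (-(k • A)) p)) p := by
  have h0 : HasFDerivAt (fun q : ℝ × ℝ => a q.1) (a' • ContinuousLinearMap.fst ℝ ℝ ℝ) p :=
    ha.comp_hasFDerivAt p hasFDerivAt_fst
  have h1 : HasFDerivAt (fun q : ℝ × ℝ => k * q.2) (k • ContinuousLinearMap.snd ℝ ℝ ℝ) p :=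
    hasFDerivAt_snd.const_mul k
  have h2 := h0.smul ((h1.cos.smul_const A).add (h1.sin.smul_const B))
  refine h2.congr_fderiv ?_
  ext q <;> (simp [mode] <;> ring)

theorem pdu_mode {a : ℝ → ℝ} {a' : ℝ} (k : ℝ) (A B : E9) (p : ℝ × ℝ)
    (ha : HasDerivAt a a' p.1) :
    pdu (mode a k A B) p = a' • (Real.cos (k * p.2) • A + Real.sin (k * p.2) • B) := by
  unfold pdu
  rw [(hasFDerivAt_mode k A B p ha).fderiv]
  simp

theorem pdv_mode {a : ℝ → ℝ} {a' : ℝ} (k : ℝ) (A B : E9) (p : ℝ × ℝ)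
    (ha : HasDerivAt a a' p.1) :
    pdv (mode a k A B) p = mode a k (k • B) (-(k • A)) p := by
  unfold pdv
  rw [(hasFDerivAt_mode k A B p ha).fderiv]
  simp

/-- A sum of five modes. -/
noncomputable def ms (a : Fin 5 → ℝ → ℝ) (k : Fin 5 → ℝ) (A B : Fin 5 → E9) (p : ℝ × ℝ) : E9 :=
  ∑ j, mode (a j) (k j) (A j) (B j) p

theorem pdu_ms {a a' : Fin 5 → ℝ → ℝ} (k : Fin 5 → ℝ) (A B : Fin 5 → E9) (p : ℝ × ℝ)
    (ha : ∀ j, HasDerivAt (a j) (a' j p.1) p.1) :
    pdu (ms a k A B) p = ms a' k A B p := by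
  have h : HasFDerivAt (fun q => ∑ j, mode (a j) (k j) (A j) (B j) q)
      (∑ j, fderiv ℝ (mode (a j) (k j) (A j) (B j)) p) p :=
    HasFDerivAt.fun_sum fun j _ => (hasFDerivAt_mode _ _ _ p (ha j)).differentiableAt.hasFDerivAt
  have h' : fderiv ℝ (ms a k A B) p = ∑ j, fderiv ℝ (mode (a j) (k j) (A j) (B j)) p := h.fderiv
  unfold pdu
  rw [h']
  simp only [sum_apply]
  unfold ms
  exact Finset.sum_congr rfl fun j _ => pdu_mode _ _ _ p (ha j)

theorem pdv_ms {a a' : Fin 5 → ℝ → ℝ} (k : Fin 5 → ℝ) (A B : Fin 5 → E9) (p : ℝ × ℝ)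
    (ha : ∀ j, HasDerivAt (a j) (a' j p.1) p.1) :
    pdv (ms a k A B) p = ms a k (fun j => k j • B j) (fun j => -(k j • A j)) p := by
  have h : HasFDerivAt (fun q => ∑ j, mode (a j) (k j) (A j) (B j) q)
      (∑ j, fderiv ℝ (mode (a j) (k j) (A j) (B j)) p) p :=
    HasFDerivAt.fun_sum fun j _ => (hasFDerivAt_mode _ _ _ p (ha j)).differentiableAt.hasFDerivAt
  have h' : fderiv ℝ (ms a k A B) p = ∑ j, fderiv ℝ (mode (a j) (k j) (A j) (B j)) p := h.fderiv
  unfold pdv
  rw [h']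
  simp only [sum_apply]
  unfold ms
  exact Finset.sum_congr rfl fun j _ => pdv_mode _ _ _ p (ha j)

/-- Frame vectors and frequencies. -/
noncomputable def VA : Fin 5 → E9 :=
  ![EuclideanSpace.single 0 1, EuclideanSpace.single 2 1, EuclideanSpace.single 4 1,
    EuclideanSpace.single 6 1, EuclideanSpace.single 8 1]

noncomputable def VB : Fin 5 → E9 :=
  ![EuclideanSpace.single 1 1, EuclideanSpace.single 3 1, EuclideanSpace.single 5 1,
    EuclideanSpace.single 7 1, 0]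

noncomputable def fk : Fin 5 → ℝ := ![5, 1, 3, 9, 0]

theorem inner_frame (α β γ δ : Fin 5 → ℝ) :
    inner ℝ (∑ j, (α j • VA j + β j • VB j)) (∑ j, (γ j • VA j + δ j • VB j)) =
      (∑ j, α j * γ j) + (β 0 * δ 0 + β 1 * δ 1 + β 2 * δ 2 + β 3 * δ 3) := by
  simp [Fin.sum_univ_succ, VA, VB, PiLp.inner_apply]
  ring

/-- The function `√(24 - 15 sin² u)`. -/
noncomputable def W (u : ℝ) : ℝ := Real.sqrt (24 - 15 * Real.sin u ^ 2)

theorem W_arg (u : ℝ) : 0 < 24 - 15 * Real.sin u ^ 2 := by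
  have := Real.sin_sq_le_one u
  linarith

theorem W_pos (u : ℝ) : 0 < W u := Real.sqrt_pos.2 (W_arg u)

theorem W_sq (u : ℝ) : W u ^ 2 = 24 - 15 * Real.sin u ^ 2 := Real.sq_sqrt (W_arg u).le

theorem hasDerivAt_W (u : ℝ) : HasDerivAt W (-15 * (Real.sin u * Real.cos u) / W u) u := by
  have h1 : HasDerivAt (fun u => 24 - 15 * Real.sin u ^ 2)
      (-(15 * (2 * Real.sin u * Real.cos u))) u := by
    have := (((Real.hasDerivAt_sin u).pow 2).const_mul 15).const_sub 24
    refine this.congr_deriv ?_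
    simp
  have h2 := h1.sqrt (W_arg u).ne'
  refine h2.congr_deriv ?_
  have hw := (W_pos u).ne'
  unfold W at hw ⊢
  field_simp

theorem contDiff_W : ContDiff ℝ ∞ W := by
  unfold W
  refine ContDiff.sqrt (by fun_prop) fun u => (W_arg u).ne'

/-- The multiplicities of the eigenvalue. -/
noncomputable def mu : Fin 5 → ℝ := ![1, 1, 3, 3, 3]

/-- The profile functions. -/
noncomputable def ca : Fin 5 → ℝ → ℝ :=
  ![fun u => 9 * W u, fun u => 9 * √15 * Real.sin u, fun u => 45 * (Real.sin u * Real.cos u),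
    fun u => √15 * (Real.cos u * W u), fun u => 2 * √2 * (15 * Real.sin u ^ 2 - 6)]

/-- Their derivatives. -/
noncomputable def cad : Fin 5 → ℝ → ℝ :=
  ![fun u => -135 * (Real.sin u * Real.cos u) / W u, fun u => 9 * √15 * Real.cos u,
    fun u => 45 * (Real.cos u ^ 2 - Real.sin u ^ 2),
    fun u => √15 * (Real.sin u * (-39 + 30 * Real.sin u ^ 2)) / W u,
    fun u => 60 * √2 * (Real.sin u * Real.cos u)]

/-- `W` times the derivatives. -/
noncomputable def cb : Fin 5 → ℝ → ℝ :=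
  ![fun u => -135 * (Real.sin u * Real.cos u), fun u => 9 * √15 * (Real.cos u * W u),
    fun u => 45 * ((Real.cos u ^ 2 - Real.sin u ^ 2) * W u),
    fun u => √15 * (Real.sin u * (-39 + 30 * Real.sin u ^ 2)),
    fun u => 60 * √2 * (Real.sin u * Real.cos u * W u)]

/-- Derivatives of `cb`. -/
noncomputable def cbd (j : Fin 5) (u : ℝ) : ℝ :=
  (fk j ^ 2 - 10 * mu j * (4 - 3 * Real.sin u ^ 2)) * ca j u / W u

theorem hasDerivAt_cosW (u : ℝ) : HasDerivAt (fun u => Real.cos u * W u)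
    (Real.sin u * (-39 + 30 * Real.sin u ^ 2) / W u) u := by
  refine ((Real.hasDerivAt_cos u).mul (hasDerivAt_W u)).congr_deriv ?_
  have hw := (W_pos u).ne'
  have h1 := W_sq u
  have h2 := Real.sin_sq_add_cos_sq u
  field_simp
  linear_combination (-Real.sin u) * h1 + (-15 * Real.sin u) * h2

theorem hasDerivAt_ca (j : Fin 5) (u : ℝ) : HasDerivAt (ca j) (cad j u) u := by
  have hs := Real.hasDerivAt_sin u
  have hc := Real.hasDerivAt_cos u
  have hW := hasDerivAt_W u
  fin_cases j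
  · refine (hW.const_mul 9).congr_deriv ?_
    simp only [cad, Fin.zero_eta, Matrix.cons_val_zero]
    ring
  · refine (hs.const_mul (9 * √15)).congr_deriv ?_
    simp [cad]
  · refine ((hs.mul hc).const_mul 45).congr_deriv ?_
    simp [cad]
    ring
  · refine ((hasDerivAt_cosW u).const_mul (√15)).congr_deriv ?_
    simp [cad]
    ring
  · refine (((hs.pow 2).const_mul 15).sub_const 6 |>.const_mul (2 * √2)).congr_deriv ?_
    simp [cad]
    ring

theorem hasDerivAt_cb (j : Fin 5) (u : ℝ) : HasDerivAt (cb j) (cbd j u) u := by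
  have hs := Real.hasDerivAt_sin u
  have hc := Real.hasDerivAt_cos u
  have hW := hasDerivAt_W u
  have hw := (W_pos u).ne'
  have h1 := W_sq u
  have h2 := Real.sin_sq_add_cos_sq u
  fin_cases j
  · refine ((hs.mul hc).const_mul (-135)).congr_deriv ?_
    simp [cbd, fk, mu, ca]
    field_simp
    linear_combination (-135) * h2
  · refine ((hasDerivAt_cosW u).const_mul (9 * √15)).congr_deriv ?_
    simp [cbd, fk, mu, ca]
    field_simp
    ring
  · refine ((((hc.pow 2).sub (hs.pow 2)).mul hW).const_mul 45).congr_deriv ?_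
    simp [cbd, fk, mu, ca]
    field_simp
    linear_combination (-4 * Real.sin u * Real.cos u) * h1 +
      (-15 * Real.sin u * Real.cos u) * h2
  · refine ((hs.mul (((hs.pow 2).const_mul 30).const_add (-39))).const_mul (√15)).congr_deriv ?_
    simp [cbd, fk, mu, ca]
    field_simp
    ring
  · refine (((hs.mul hc).mul hW).const_mul (60 * √2)).congr_deriv ?_
    simp [cbd, fk, mu, ca]
    field_simp
    linear_combination (60 * Real.cos u ^ 2 - 60 * Real.sin u ^ 2) * h1 +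
      (1440 - 1800 * Real.sin u ^ 2) * h2

/-- The maps `Y ε`: the modes weighted by `ε`. -/
noncomputable def Y (ε : Fin 5 → ℝ) : ℝ × ℝ → E9 := ms (fun j u => ε j * ca j u) fk VA VB

/-- The immersion. -/
noncomputable def X : ℝ × ℝ → E9 := Y (fun _ => 1)

theorem pdu_Y (ε : Fin 5 → ℝ) (p : ℝ × ℝ) :
    pdu (Y ε) p = ms (fun j u => ε j * cad j u) fk VA VB p :=
  pdu_ms (a' := fun j u => ε j * cad j u) fk VA VB p
    fun j => (hasDerivAt_ca j p.1).const_mul (ε j)

theorem pdv_Y (ε : Fin 5 → ℝ) (p : ℝ × ℝ) :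
    pdv (Y ε) p = ms (fun j u => ε j * ca j u) fk (fun j => fk j • VB j)
      (fun j => -(fk j • VA j)) p :=
  pdv_ms (a' := fun j u => ε j * cad j u) fk VA VB p
    fun j => (hasDerivAt_ca j p.1).const_mul (ε j)

theorem ms_eq (a : Fin 5 → ℝ → ℝ) (p : ℝ × ℝ) : ms a fk VA VB p =
    ∑ j, ((a j p.1 * Real.cos (fk j * p.2)) • VA j + (a j p.1 * Real.sin (fk j * p.2)) • VB j) := by
  unfold ms mode
  refine Finset.sum_congr rfl fun j _ => ?_
  rw [smul_add, smul_smul, smul_smul]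

theorem ms_eq' (a : Fin 5 → ℝ → ℝ) (p : ℝ × ℝ) :
    ms a fk (fun j => fk j • VB j) (fun j => -(fk j • VA j)) p =
    ∑ j, ((-(a j p.1 * fk j * Real.sin (fk j * p.2))) • VA j +
      (a j p.1 * fk j * Real.cos (fk j * p.2)) • VB j) := by
  unfold ms mode
  refine Finset.sum_congr rfl fun j _ => ?_
  module

/-- The conformal factor. -/
noncomputable def G2 (u : ℝ) : ℝ := 19440 * (4 - 3 * Real.sin u ^ 2)

theorem G2_pos (u : ℝ) : 0 < G2 u := by
  have := Real.sin_sq_le_one u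
  unfold G2
  linarith

theorem sq15 : √15 * √15 = (15 : ℝ) := Real.mul_self_sqrt (by norm_num)
theorem sq2 : √2 * √2 = (2 : ℝ) := Real.mul_self_sqrt (by norm_num)

theorem gE_X (p : ℝ × ℝ) : gE X p = G2 p.1 / W p.1 ^ 2 := by
  unfold gE X
  rw [pdu_Y, ms_eq, inner_frame]
  obtain ⟨u, v⟩ := p
  have hw := (W_pos u).ne'
  have h1 := W_sq u
  have h2' : Real.cos u ^ 2 = 1 - Real.sin u ^ 2 := Real.cos_sq' u
  have q15 : √15 ^ 2 = (15 : ℝ) := Real.sq_sqrt (by norm_num)
  have q2 : √2 ^ 2 = (2 : ℝ) := Real.sq_sqrt (by norm_num)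
  have t0 := Real.sin_sq_add_cos_sq (5 * v)
  have t1 := Real.sin_sq_add_cos_sq v
  have t2 := Real.sin_sq_add_cos_sq (3 * v)
  have t3 := Real.sin_sq_add_cos_sq (9 * v)
  have hE : (∑ j : Fin 5, cad j u ^ 2) = G2 u / W u ^ 2 := by
    simp [Fin.sum_univ_succ, cad, G2]
    field_simp
    ring_nf
    rw [show Real.cos u ^ 4 = (1 - Real.sin u ^ 2) ^ 2 from by rw [← h2']; ring, h2', h1, q15, q2]
    ring
  rw [← hE]
  simp [Fin.sum_univ_succ, fk]
  linear_combination (cad 0 u) ^ 2 * t0 + (cad 1 u) ^ 2 * t1 + (cad 2 u) ^ 2 * t2 +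
    (cad 3 u) ^ 2 * t3

theorem gG_X (p : ℝ × ℝ) : gG X p = G2 p.1 := by
  unfold gG X
  rw [pdv_Y, ms_eq', inner_frame]
  obtain ⟨u, v⟩ := p
  have hw := (W_pos u).ne'
  have h1 := W_sq u
  have h2' : Real.cos u ^ 2 = 1 - Real.sin u ^ 2 := Real.cos_sq' u
  have q15 : √15 ^ 2 = (15 : ℝ) := Real.sq_sqrt (by norm_num)
  have hG : (∑ j : Fin 5, fk j ^ 2 * ca j u ^ 2) = G2 u := by
    simp [Fin.sum_univ_succ, ca, G2, fk]
    ring_nf
    rw [h2', h1, q15]
    ring
  rw [← hG]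
  simp [Fin.sum_univ_succ, fk]
  have t0 := Real.sin_sq_add_cos_sq (5 * v)
  have t1 := Real.sin_sq_add_cos_sq v
  have t2 := Real.sin_sq_add_cos_sq (3 * v)
  have t3 := Real.sin_sq_add_cos_sq (9 * v)
  linear_combination 25 * (ca 0 u) ^ 2 * t0 + (ca 1 u) ^ 2 * t1 + 9 * (ca 2 u) ^ 2 * t2 +
    81 * (ca 3 u) ^ 2 * t3

theorem gF_X (p : ℝ × ℝ) : gF X p = 0 := by
  unfold gF X
  rw [pdu_Y, pdv_Y, ms_eq, ms_eq', inner_frame]
  obtain ⟨u, v⟩ := p
  simp [Fin.sum_univ_succ, fk]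
  ring

theorem area_X (p : ℝ × ℝ) : area X p = G2 p.1 / W p.1 := by
  unfold area
  rw [gE_X, gG_X, gF_X]
  have hw := (W_pos p.1)
  have hG := G2_pos p.1
  have : G2 p.1 / W p.1 ^ 2 * G2 p.1 - 0 ^ 2 = (G2 p.1 / W p.1) ^ 2 := by
    field_simp
    ring
  rw [this, Real.sqrt_sq (by positivity)]

theorem diff_ca (j : Fin 5) (u : ℝ) : DifferentiableAt ℝ (ca j) u :=
  (hasDerivAt_ca j u).differentiableAt

theorem diff_W (u : ℝ) : DifferentiableAt ℝ W u := (hasDerivAt_W u).differentiableAt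

theorem Wcad (j : Fin 5) (u : ℝ) : W u * cad j u = cb j u := by
  have hw := (W_pos u).ne'
  fin_cases j <;> simp [cad, cb] <;> field_simp

theorem fun1 (ε : Fin 5 → ℝ) :
    (fun q => (area X q)⁻¹ • (gG X q • pdu (Y ε) q - gF X q • pdv (Y ε) q)) =
      ms (fun j u => ε j * cb j u) fk VA VB := by
  funext q
  rw [area_X, gG_X, gF_X, zero_smul, sub_zero, pdu_Y]
  unfold ms mode
  rw [Finset.smul_sum, Finset.smul_sum]
  refine Finset.sum_congr rfl fun j _ => ?_
  dsimp only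
  rw [← Wcad]
  simp only [smul_smul]
  congr 1
  have hw := (W_pos q.1).ne'
  have hG := (G2_pos q.1).ne'
  field_simp

theorem fun2 (ε : Fin 5 → ℝ) :
    (fun q => (area X q)⁻¹ • (gE X q • pdv (Y ε) q - gF X q • pdu (Y ε) q)) =
      ms (fun j u => ε j * (ca j u / W u)) fk (fun j => fk j • VB j) (fun j => -(fk j • VA j)) := by
  funext q
  rw [area_X, gE_X, gF_X, zero_smul, sub_zero, pdv_Y]
  unfold ms mode
  rw [Finset.smul_sum, Finset.smul_sum]
  refine Finset.sum_congr rfl fun j _ => ?_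
  simp only [smul_smul]
  congr 1
  have hw := (W_pos q.1).ne'
  have hG := (G2_pos q.1).ne'
  field_simp

theorem lap_Y (ε : Fin 5 → ℝ) (p : ℝ × ℝ) :
    lap X (Y ε) p = Y (fun j => mu j / 1944 * ε j) p := by
  unfold lap
  rw [fun1, fun2, area_X,
    pdu_ms (a' := fun j u => ε j * cbd j u) fk VA VB p
      (fun j => (hasDerivAt_cb j p.1).const_mul (ε j)),
    pdv_ms (a' := fun j u => ε j * deriv (fun u => ca j u / W u) u) fk _ _ p
      (fun j => (((diff_ca j p.1).fun_div (diff_W p.1) (W_pos p.1).ne').hasDerivAt).const_mul (ε j))]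
  unfold Y ms mode
  rw [← Finset.sum_add_distrib, Finset.smul_sum, ← Finset.sum_neg_distrib]
  refine Finset.sum_congr rfl fun j _ => ?_
  have hw := (W_pos p.1).ne'
  have hG := (G2_pos p.1).ne'
  have key : -((G2 p.1 / W p.1)⁻¹ * (ε j * cbd j p.1 - ε j * (ca j p.1 / W p.1) * fk j ^ 2)) =
      mu j / 1944 * ε j * ca j p.1 := by
    have h4 : 4 - 3 * Real.sin p.1 ^ 2 ≠ 0 := by
      have := Real.sin_sq_le_one p.1
      intro h
      linarith
    unfold cbd
    unfold G2 at hG ⊢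
    field_simp
    ring
  dsimp only
  rw [← key]
  module

theorem contDiff_ca (j : Fin 5) : ContDiff ℝ ∞ (ca j) := by
  have hW := contDiff_W
  fin_cases j <;> simp only [ca] <;> simp <;> fun_prop

theorem contDiff_Y (ε : Fin 5 → ℝ) : ContDiff ℝ ∞ (Y ε) := by
  unfold Y ms mode
  refine ContDiff.sum fun j _ => ?_
  have h1 : ContDiff ℝ ∞ (fun p : ℝ × ℝ => ca j p.1) := (contDiff_ca j).comp contDiff_fst
  refine ((contDiff_const.mul h1)).smul ?_
  fun_prop

theorem norm_X (p : ℝ × ℝ) : ‖X p‖ = √2592 := by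
  have h : inner ℝ (X p) (X p) = (2592 : ℝ) := by
    unfold X Y
    rw [ms_eq, inner_frame]
    obtain ⟨u, v⟩ := p
    have h1 := W_sq u
    have h2' : Real.cos u ^ 2 = 1 - Real.sin u ^ 2 := Real.cos_sq' u
    have q15 : √15 ^ 2 = (15 : ℝ) := Real.sq_sqrt (by norm_num)
    have q2 : √2 ^ 2 = (2 : ℝ) := Real.sq_sqrt (by norm_num)
    have t0 := Real.sin_sq_add_cos_sq (5 * v)
    have t1 := Real.sin_sq_add_cos_sq v
    have t2 := Real.sin_sq_add_cos_sq (3 * v)
    have t3 := Real.sin_sq_add_cos_sq (9 * v)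
    have hS : (∑ j : Fin 5, ca j u ^ 2) = 2592 := by
      simp [Fin.sum_univ_succ, ca]
      ring_nf
      rw [h2', h1, q15, q2]
      ring
    rw [← hS]
    simp [Fin.sum_univ_succ, fk]
    linear_combination (ca 0 u) ^ 2 * t0 + (ca 1 u) ^ 2 * t1 + (ca 2 u) ^ 2 * t2 +
      (ca 3 u) ^ 2 * t3
  rw [← h, real_inner_self_eq_norm_sq, Real.sqrt_sq (norm_nonneg _)]

theorem isImmersion_X : IsImmersion X := by
  refine ⟨contDiff_Y _, fun p => ?_⟩
  have hw := W_pos p.1
  have hG := G2_pos p.1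
  have hE : 0 < gE X p := by rw [gE_X]; positivity
  have hGG : 0 < gG X p := by rw [gG_X]; exact hG
  have hF : gF X p = 0 := gF_X p
  rw [LinearIndependent.pair_iff]
  intro a b hab
  have h1 : inner ℝ (pdu X p) (a • pdu X p + b • pdv X p) = 0 := by rw [hab, inner_zero_right]
  have h2 : inner ℝ (pdv X p) (a • pdu X p + b • pdv X p) = 0 := by rw [hab, inner_zero_right]
  rw [inner_add_right, inner_smul_right, inner_smul_right] at h1 h2
  have e1 : inner ℝ (pdu X p) (pdu X p) = gE X p := rfl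
  have e2 : inner ℝ (pdu X p) (pdv X p) = gF X p := rfl
  have e3 : inner ℝ (pdv X p) (pdv X p) = gG X p := rfl
  have e4 : inner ℝ (pdv X p) (pdu X p) = gF X p := real_inner_comm _ _
  rw [e1, e2, hF] at h1
  rw [e4, e3, hF] at h2
  constructor
  · have : a * gE X p = 0 := by linarith
    exact (mul_eq_zero.1 this).resolve_right hE.ne'
  · have : b * gG X p = 0 := by linarith
    exact (mul_eq_zero.1 this).resolve_right hGG.ne'

theorem W_per (u : ℝ) : W (u + 2 * Real.pi) = W u := by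
  unfold W
  rw [Real.sin_add_two_pi]

theorem ca_per (j : Fin 5) (u : ℝ) : ca j (u + 2 * Real.pi) = ca j u := by
  fin_cases j <;> simp [ca, W_per]

theorem cos_per (n : ℕ) (v : ℝ) : Real.cos (n * (v + 2 * Real.pi)) = Real.cos (n * v) := by
  rw [mul_add]
  exact Real.cos_add_nat_mul_two_pi _ _

theorem sin_per (n : ℕ) (v : ℝ) : Real.sin (n * (v + 2 * Real.pi)) = Real.sin (n * v) := by
  rw [mul_add]
  exact Real.sin_add_nat_mul_two_pi _ _

theorem fk_nat (j : Fin 5) : ∃ n : ℕ, fk j = n := by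
  fin_cases j
  · exact ⟨5, by simp [fk]⟩
  · exact ⟨1, by simp [fk]⟩
  · exact ⟨3, by simp [fk]⟩
  · exact ⟨9, by simp [fk]⟩
  · exact ⟨0, by simp [fk]⟩

theorem torus_Y (ε : Fin 5 → ℝ) : IsTorusMap (Y ε) := by
  constructor
  · intro u v
    unfold Y ms mode
    simp only [ca_per]
  · intro u v
    unfold Y ms mode
    refine Finset.sum_congr rfl fun j _ => ?_
    obtain ⟨n, hn⟩ := fk_nat j
    simp only [hn, cos_per, sin_per]

theorem inner_X (w : E9) (u v : ℝ) : inner ℝ w (X (u, v)) =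
    ca 0 u * (w 0 * Real.cos (5 * v) + w 1 * Real.sin (5 * v)) +
    ca 1 u * (w 2 * Real.cos v + w 3 * Real.sin v) +
    ca 2 u * (w 4 * Real.cos (3 * v) + w 5 * Real.sin (3 * v)) +
    ca 3 u * (w 6 * Real.cos (9 * v) + w 7 * Real.sin (9 * v)) + ca 4 u * w 8 := by
  unfold X Y ms mode
  simp [Fin.sum_univ_succ, VA, VB, fk, PiLp.inner_apply]
  ring

theorem full_X : IsFull X := by
  intro w t hw
  by_contra hcon
  push Not at hcon
  apply hw
  have H : ∀ u v : ℝ, ca 0 u * (w 0 * Real.cos (5 * v) + w 1 * Real.sin (5 * v)) +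
      ca 1 u * (w 2 * Real.cos v + w 3 * Real.sin v) +
      ca 2 u * (w 4 * Real.cos (3 * v) + w 5 * Real.sin (3 * v)) +
      ca 3 u * (w 6 * Real.cos (9 * v) + w 7 * Real.sin (9 * v)) + ca 4 u * w 8 = t := by
    intro u v
    rw [← inner_X]
    exact hcon (u, v)
  have hW0 := W_pos 0
  have hWpi : W Real.pi = W 0 := by unfold W; rw [Real.sin_pi, Real.sin_zero]
  have h15 : 0 < √(15 : ℝ) := Real.sqrt_pos.2 (by norm_num)
  have h2 : 0 < √(2 : ℝ) := Real.sqrt_pos.2 (by norm_num)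
  have D1 : ∀ v : ℝ, w 6 * Real.cos (9 * v) + w 7 * Real.sin (9 * v) = 0 := by
    intro v
    have e1 := H 0 v
    have e2 := H Real.pi v
    simp only [ca, Matrix.cons_val_zero, Matrix.cons_val_one, Matrix.cons_val, Real.sin_zero,
      Real.cos_zero, Real.sin_pi, Real.cos_pi, hWpi] at e1 e2
    have e3 : (2 * √15 * W 0) * (w 6 * Real.cos (9 * v) + w 7 * Real.sin (9 * v)) = 0 := by
      linear_combination e1 - e2
    exact (mul_eq_zero.1 e3).resolve_left (by positivity)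
  have w6 : w 6 = 0 := by
    have := D1 0
    simpa using this
  have w7 : w 7 = 0 := by
    have := D1 (Real.pi / 18)
    rw [show 9 * (Real.pi / 18) = Real.pi / 2 by ring, Real.cos_pi_div_two, Real.sin_pi_div_two] at this
    linarith
  have A0 : ∀ v : ℝ, (9 * W 0) * (w 0 * Real.cos (5 * v) + w 1 * Real.sin (5 * v)) =
      t + 12 * √2 * w 8 := by
    intro v
    have e1 := H 0 v
    simp only [ca, Matrix.cons_val_zero, Matrix.cons_val_one, Matrix.cons_val, Real.sin_zero,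
      Real.cos_zero, w6, w7] at e1
    linear_combination e1
  have w0 : w 0 = 0 := by
    have e1 := A0 0
    have e2 := A0 (Real.pi / 5)
    rw [show 5 * (Real.pi / 5) = Real.pi by ring, Real.cos_pi, Real.sin_pi] at e2
    rw [mul_zero, Real.cos_zero, Real.sin_zero] at e1
    have e3 : (18 * W 0) * w 0 = 0 := by linear_combination e1 - e2
    exact (mul_eq_zero.1 e3).resolve_left (by positivity)
  have w1 : w 1 = 0 := by
    have e1 := A0 (Real.pi / 10)
    have e2 := A0 (-(Real.pi / 10))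
    rw [show 5 * (Real.pi / 10) = Real.pi / 2 by ring, Real.cos_pi_div_two,
      Real.sin_pi_div_two] at e1
    rw [show 5 * (-(Real.pi / 10)) = -(Real.pi / 2) by ring, Real.cos_neg, Real.sin_neg,
      Real.cos_pi_div_two, Real.sin_pi_div_two] at e2
    have e3 : (18 * W 0) * w 1 = 0 := by linear_combination e1 - e2
    exact (mul_eq_zero.1 e3).resolve_left (by positivity)
  have hWn : W (-(Real.pi / 2)) = W (Real.pi / 2) := by
    unfold W; rw [Real.sin_neg]; congr 2; ring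
  have D2 : ∀ v : ℝ, w 2 * Real.cos v + w 3 * Real.sin v = 0 := by
    intro v
    have e1 := H (Real.pi / 2) v
    have e2 := H (-(Real.pi / 2)) v
    simp only [ca, Matrix.cons_val_zero, Matrix.cons_val_one, Matrix.cons_val, Real.sin_neg,
      Real.cos_neg, Real.sin_pi_div_two, Real.cos_pi_div_two, hWn, w0, w1] at e1 e2
    have e3 : (18 * √15) * (w 2 * Real.cos v + w 3 * Real.sin v) = 0 := by
      linear_combination e1 - e2
    exact (mul_eq_zero.1 e3).resolve_left (by positivity)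
  have w2 : w 2 = 0 := by
    have := D2 0
    simpa using this
  have w3 : w 3 = 0 := by
    have := D2 (Real.pi / 2)
    rw [Real.cos_pi_div_two, Real.sin_pi_div_two] at this
    linarith
  have e5 := H (Real.pi / 2) 0
  simp only [ca, Matrix.cons_val_zero, Matrix.cons_val_one, Matrix.cons_val,
      Real.sin_pi_div_two, Real.cos_pi_div_two, w0, w1, w2, w3, w6, w7] at e5
  have e6 := A0 0
  rw [w0, w1] at e6
  have w8 : w 8 = 0 := by
    have e7 : (30 * √2) * w 8 = 0 := by linear_combination e5 - e6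
    exact (mul_eq_zero.1 e7).resolve_left (by positivity)
  have ht : t = 0 := by
    rw [w8] at e6
    linarith
  have D3 : ∀ v : ℝ, w 4 * Real.cos (3 * v) + w 5 * Real.sin (3 * v) = 0 := by
    intro v
    have e1 := H (Real.pi / 4) v
    simp only [ca, Matrix.cons_val_zero, Matrix.cons_val_one, Matrix.cons_val,
      Real.sin_pi_div_four, Real.cos_pi_div_four, w0, w1, w2, w3, w6, w7, w8, ht] at e1
    have h22 : √2 * √2 = (2 : ℝ) := Real.mul_self_sqrt (by norm_num)
    have e3 : (45 / 2) * (w 4 * Real.cos (3 * v) + w 5 * Real.sin (3 * v)) = 0 := by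
      linear_combination e1 - (45 / 4) * (w 4 * Real.cos (3 * v) + w 5 * Real.sin (3 * v)) * h22
    exact (mul_eq_zero.1 e3).resolve_left (by norm_num)
  have w4 : w 4 = 0 := by
    have := D3 0
    simpa using this
  have w5 : w 5 = 0 := by
    have := D3 (Real.pi / 6)
    rw [show 3 * (Real.pi / 6) = Real.pi / 2 by ring, Real.cos_pi_div_two,
      Real.sin_pi_div_two] at this
    linarith
  ext i
  fin_cases i <;> simp [w0, w1, w2, w3, w4, w5, w6, w7, w8]

/-- **Answer to Q2 (yes).**  There is a smooth immersion of the torus into `E⁹` which is of 2-type,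
is contained in a hypersphere (of dimension 8, so even-dimensional), is contained in no affine
hyperplane, and is mass-symmetric in that hypersphere: in the spectral decomposition
`x = c + x₁ + x₂` the constant `c` is the centre `o` of the sphere. -/
theorem result :
    ∃ (x : ℝ × ℝ → EuclideanSpace ℝ (Fin 9)) (o : EuclideanSpace ℝ (Fin 9)) (r : ℝ),
      IsImmersion x ∧ IsTorusMap x ∧ LiesInSphere x o r ∧ IsFull x ∧
      IsTwoTypeWithCentre x o := by
  refine ⟨X, 0, √2592, isImmersion_X, torus_Y _,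
    ⟨Real.sqrt_pos.2 (by norm_num), fun p => by rw [sub_zero]; exact norm_X p⟩, full_X,
    Y ![1, 1, 0, 0, 0], Y ![0, 0, 1, 1, 1], 1 / 1944, 1 / 648, by norm_num, by norm_num,
    contDiff_Y _, contDiff_Y _, torus_Y _, torus_Y _, ?_, ?_, ?_, ?_, ?_⟩
  · intro a
    by_contra hcon
    push Not at hcon
    have h1 := hcon (0, 0)
    have h2 := hcon (0, Real.pi / 5)
    have h3 : (Y ![1, 1, 0, 0, 0] (0, 0)) 0 = (Y ![1, 1, 0, 0, 0] (0, Real.pi / 5)) 0 := by
      rw [h1, h2]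
    have hW0 := W_pos 0
    simp [Y, ms, mode, Fin.sum_univ_succ, VA, VB, fk, ca] at h3
    rw [show 5 * (Real.pi / 5) = Real.pi by ring, Real.cos_pi] at h3
    linarith
  · intro a
    by_contra hcon
    push Not at hcon
    have h1 := hcon (0, 0)
    have h2 := hcon (Real.pi / 2, 0)
    have h3 : (Y ![0, 0, 1, 1, 1] (0, 0)) 8 = (Y ![0, 0, 1, 1, 1] (Real.pi / 2, 0)) 8 := by
      rw [h1, h2]
    have h2' : 0 < √(2 : ℝ) := Real.sqrt_pos.2 (by norm_num)
    simp [Y, ms, mode, Fin.sum_univ_succ, VA, VB, fk, ca] at h3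
    linarith
  · intro p
    rw [zero_add]
    unfold X Y ms mode
    rw [← Finset.sum_add_distrib]
    refine Finset.sum_congr rfl fun j _ => ?_
    fin_cases j <;> simp
  · intro p
    rw [lap_Y]
    unfold Y ms mode
    rw [Finset.smul_sum]
    refine Finset.sum_congr rfl fun j _ => ?_
    fin_cases j <;> simp [mu, smul_smul] <;> ring_nf
  · intro p
    rw [lap_Y]
    unfold Y ms mode
    rw [Finset.smul_sum]
    refine Finset.sum_congr rfl fun j _ => ?_
    fin_cases j <;> simp [mu, smul_smul] <;> norm_num <;> ring_nf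

end Pool.Agent.Results.MP_1643f9_gt.MassSymmetricTorus
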